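import Pool.Agent.MWFE.StmtsA

/-!
# Squad MWFE, row YQZ: the tokens with labels
-/

set_option autoImplicit false

namespace Pool.Agent.MWFE.H86

open Pool.Agent.MWFE
open Pool.Agent.MWGR (cb)

/-- the first half of the token -/
def pre (n : ℕ) (ζ : ℕ → List ℕ) (l : ℕ) : List ℕ :=
  (List.range 3).flatMap (fun k => pwr (n + if k < l then 1 else 0) (ζ k))

/-- the second half of the token -/
def suf (n : ℕ) (ζ : ℕ → List ℕ) (l : ℕ) : List ℕ :=
  (List.range 3).flatMap (fun k => pwr (2 * n - if k < l then 1 else 0) (ζ k))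

/-- the token -/
def tok (n : ℕ) (ζ A : ℕ → List ℕ) (l : ℕ) : List ℕ := pre n ζ l ++ (A l ++ suf n ζ l)

theorem Yw_eq (n : ℕ) (ζ A : ℕ → List ℕ) (s : List ℕ) : Yw n ζ A s = s.flatMap (tok n ζ A) := rfl

theorem count_pwr (k : ℕ) (w : List ℕ) (h : ℕ) : (pwr k w).count h = k * w.count h := by
  unfold pwr
  induction k with
  | zero => simp
  | succ k ih =>
    rw [List.replicate_succ, List.flatten_cons, List.count_append, ih]
    ring

theorem count_pre (n : ℕ) (ζ : ℕ → List ℕ) (l h : ℕ) : (pre n ζ l).count h =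
    (n + if 0 < l then 1 else 0) * (ζ 0).count h + (n + if 1 < l then 1 else 0) * (ζ 1).count h +
      (n + if 2 < l then 1 else 0) * (ζ 2).count h := by
  unfold pre
  rw [show List.range 3 = [0, 1, 2] from rfl]
  simp only [List.flatMap_cons, List.flatMap_nil, List.append_nil, List.count_append, count_pwr]
  ring

theorem count_suf (n : ℕ) (ζ : ℕ → List ℕ) (l h : ℕ) : (suf n ζ l).count h =
    (2 * n - if 0 < l then 1 else 0) * (ζ 0).count h +
      (2 * n - if 1 < l then 1 else 0) * (ζ 1).count h +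
      (2 * n - if 2 < l then 1 else 0) * (ζ 2).count h := by
  unfold suf
  rw [show List.range 3 = [0, 1, 2] from rfl]
  simp only [List.flatMap_cons, List.flatMap_nil, List.append_nil, List.count_append, count_pwr]
  ring

/-- the number of the letters in the heavy words -/
def cz (ζ : ℕ → List ℕ) (h : ℕ) : ℕ := (ζ 0).count h + (ζ 1).count h + (ζ 2).count h

theorem mul_split {n c : ℕ} (hn : 2 ≤ n) (p : Prop) [Decidable p] :
    (n + if p then 1 else 0) * c + (2 * n - if p then 1 else 0) * c = 3 * n * c := by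
  rw [← add_mul]
  congr 1
  split_ifs <;> omega

theorem count_tok {n : ℕ} (hn : 2 ≤ n) (ζ A : ℕ → List ℕ) (l h : ℕ) :
    (tok n ζ A l).count h = 3 * n * cz ζ h + (A l).count h := by
  unfold tok cz
  rw [List.count_append, List.count_append, count_pre, count_suf]
  have e0 := mul_split (c := (ζ 0).count h) hn (0 < l)
  have e1 := mul_split (c := (ζ 1).count h) hn (1 < l)
  have e2 := mul_split (c := (ζ 2).count h) hn (2 < l)
  rw [mul_add, mul_add, ← e0, ← e1, ← e2]
  ring

theorem le_pre {n : ℕ} (ζ : ℕ → List ℕ) (l h : ℕ) : n * cz ζ h ≤ (pre n ζ l).count h := by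
  rw [count_pre]
  unfold cz
  rw [mul_add, mul_add]
  gcongr <;> omega

theorem le_suf {n : ℕ} (hn : 2 ≤ n) (ζ : ℕ → List ℕ) (l h : ℕ) :
    cz ζ h ≤ (suf n ζ l).count h := by
  rw [count_suf]
  unfold cz
  have e : ∀ (p : Prop) [Decidable p] (c : ℕ), c ≤ (2 * n - if p then 1 else 0) * c := by
    intro p _ c
    apply Nat.le_mul_of_pos_left
    split_ifs <;> omega
  have e0 := e (0 < l) ((ζ 0).count h)
  have e1 := e (1 < l) ((ζ 1).count h)
  have e2 := e (2 < l) ((ζ 2).count h)
  omega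

theorem count_toks {n : ℕ} (hn : 2 ≤ n) (ζ A : ℕ → List ℕ) (h : ℕ) (s : List ℕ)
    (hs : ∀ l ∈ s, h ∉ A l) :
    (s.flatMap (tok n ζ A)).count h = s.length * (3 * n * cz ζ h) := by
  induction s with
  | nil => simp
  | cons a s ih =>
    rw [List.flatMap_cons, List.count_append, count_tok hn, ih (fun l hl => hs l (by simp [hl])),
      List.count_eq_zero_of_not_mem (hs a (by simp)), List.length_cons]
    ring

theorem takeWhile_split (P Q : List ℕ) (a : ℕ) (h : a ∉ P) :
    (P ++ a :: Q).takeWhile (fun c => decide (c ≠ a)) = P := by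
  induction P with
  | nil => simp
  | cons p P ih =>
    have h1 : p ≠ a := fun e => h (by simp [e])
    have h2 : a ∉ P := fun e => h (by simp [e])
    rw [List.cons_append, List.takeWhile_cons_of_pos (by simpa using h1), ih h2]

theorem cb_split (P Q : List ℕ) (x a : ℕ) (h : a ∉ P) : cb (P ++ a :: Q) x a = P.count x := by
  unfold MWGR.cb
  rw [takeWhile_split P Q a h]

/-- the number of the letters `h` before `v` and behind `v` -/
theorem key {n : ℕ} (hn : 2 ≤ n) (ζ A : ℕ → List ℕ) (s1 s2 A1 A2 : List ℕ) (l0 v h : ℕ)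
    (hhv : h ≠ v) (hz : cz ζ v = 0) (hA : A l0 = A1 ++ v :: A2) (hv1 : v ∉ A1)
    (hs1 : ∀ l ∈ s1, v ∉ A l) (hh1 : ∀ l ∈ s1, h ∉ A l) (hh0 : h ∉ A l0) :
    cb (Yw n ζ A (s1 ++ l0 :: s2)) h v = s1.length * (3 * n * cz ζ h) + (pre n ζ l0).count h ∧
      cb (Yw n ζ A (s1 ++ l0 :: s2)) h v + (suf n ζ l0).count h ≤
        (Yw n ζ A (s1 ++ l0 :: s2)).count h := by
  have hpre : v ∉ pre n ζ l0 := by
    intro hm
    have h1 := List.count_pos_iff.2 hm
    rw [count_pre] at h1
    unfold cz at hz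
    have z0 : (ζ 0).count v = 0 := by omega
    have z1 : (ζ 1).count v = 0 := by omega
    have z2 : (ζ 2).count v = 0 := by omega
    rw [z0, z1, z2] at h1
    omega
  have htok : ∀ l ∈ s1, v ∉ tok n ζ A l := by
    intro l hl hm
    have h1 := List.count_pos_iff.2 hm
    rw [count_tok hn, hz, List.count_eq_zero_of_not_mem (hs1 l hl)] at h1
    omega
  have eY : Yw n ζ A (s1 ++ l0 :: s2) = (s1.flatMap (tok n ζ A) ++ (pre n ζ l0 ++ A1)) ++
      v :: (A2 ++ (suf n ζ l0 ++ s2.flatMap (tok n ζ A))) := by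
    rw [Yw_eq, List.flatMap_append, List.flatMap_cons]
    unfold tok
    rw [hA]
    simp only [List.append_assoc, List.cons_append]
  have hnot : v ∉ s1.flatMap (tok n ζ A) ++ (pre n ζ l0 ++ A1) := by
    simp only [List.mem_append, not_or]
    refine ⟨?_, hpre, hv1⟩
    intro hm
    obtain ⟨l, hl, hl'⟩ := List.mem_flatMap.1 hm
    exact htok l hl hl'
  have hA1 : h ∉ A1 := fun hm => hh0 (by rw [hA]; simp [hm])
  have e1 : cb (Yw n ζ A (s1 ++ l0 :: s2)) h v =
      s1.length * (3 * n * cz ζ h) + (pre n ζ l0).count h := by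
    rw [eY, cb_split _ _ _ _ hnot, List.count_append, List.count_append, count_toks hn ζ A h s1 hh1,
      List.count_eq_zero_of_not_mem hA1]
    ring
  refine ⟨e1, ?_⟩
  rw [e1, eY, List.count_append, List.count_append, List.count_append, count_toks hn ζ A h s1 hh1,
    List.count_cons_of_ne (Ne.symm hhv), List.count_append, List.count_append]
  omega

/-- **YQZ** -/
theorem yqz : YqzStmt := by
  intro n ζ A s s' Λ hn hs hs' hA
  have hlt : ∀ l ∈ s, l < 4 := by
    intro l hl
    have := (hs.mem_iff (a := l)).1 hl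
    simp at this
    omega
  have hlt' : ∀ l ∈ s', l < 4 := by
    intro l hl
    have := (hs'.mem_iff (a := l)).1 hl
    simp at this
    omega
  have hnd : s.Nodup := hs.nodup_iff.2 (by decide)
  have hnd' : s'.Nodup := hs'.nodup_iff.2 (by decide)
  refine ⟨?_, ?_⟩
  · rw [Yw_eq, Yw_eq]
    exact (hs.trans hs'.symm).flatMap_right _
  intro v hv
  -- the letter `v` does not occur in the heavy words
  have hsum : ∀ t : List ℕ, (t.flatMap (tok n ζ A)).count v =
      t.length * (3 * n * cz ζ v) + (t.flatMap A).count v := by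
    intro t
    induction t with
    | nil => simp
    | cons a t ih =>
      rw [List.flatMap_cons, List.count_append, count_tok hn, ih, List.flatMap_cons,
        List.count_append, List.length_cons]
      ring
  have hlen : s.length = 4 := hs.length_eq
  have hv' := hv
  rw [Yw_eq, hsum, hlen] at hv'
  have hz : cz ζ v = 0 := by
    by_contra hne
    have h1 : 1 ≤ cz ζ v := by omega
    have h2 : 6 * 1 ≤ 3 * n * cz ζ v := Nat.mul_le_mul (by omega) h1
    omega
  have hAc : (s.flatMap A).count v = 1 := by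
    rw [hz] at hv'
    simpa using hv'
  have hmem : v ∈ s.flatMap A := List.count_pos_iff.1 (by omega)
  obtain ⟨l0, hl0, hvl⟩ := List.mem_flatMap.1 hmem
  obtain ⟨s1, s2, hs12⟩ := List.append_of_mem hl0
  have hothers : ∀ l ∈ s, l ≠ l0 → v ∉ A l := by
    intro l hl hne hmv
    have c1 : 1 ≤ (A l0).count v := List.count_pos_iff.2 hvl
    have c2 : 1 ≤ (A l).count v := List.count_pos_iff.2 hmv
    have c3 : (s.flatMap A).count v = (s1.flatMap A).count v + ((A l0).count v +
        (s2.flatMap A).count v) := by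
      rw [hs12, List.flatMap_append, List.flatMap_cons, List.count_append, List.count_append]
    have hin : l ∈ s1 ∨ l ∈ s2 := by
      rw [hs12] at hl
      simp only [List.mem_append, List.mem_cons] at hl
      tauto
    rcases hin with h | h
    · have : 1 ≤ (s1.flatMap A).count v :=
        List.count_pos_iff.2 (List.mem_flatMap.2 ⟨l, h, hmv⟩)
      omega
    · have : 1 ≤ (s2.flatMap A).count v :=
        List.count_pos_iff.2 (List.mem_flatMap.2 ⟨l, h, hmv⟩)
      omega
  refine ⟨hA l0 (hlt l0 hl0) v hvl, ?_⟩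
  intro h hhv
  by_cases hΛ : h ∈ Λ
  · exact Or.inl hΛ
  right
  have hhA : ∀ l < 4, h ∉ A l := fun l hl hm => hΛ (hA l hl h hm)
  have hA0 := hvl
  obtain ⟨A1, A2, hA12, hvA1⟩ := List.eq_append_cons_of_mem hA0
  have hl0' : l0 ∈ s' := (hs'.mem_iff).2 ((hs.mem_iff).1 hl0)
  obtain ⟨t1, t2, ht12⟩ := List.append_of_mem hl0'
  have hs1' : ∀ l ∈ s1, l ∈ s ∧ l ≠ l0 := by
    intro l hl
    refine ⟨by rw [hs12]; simp [hl], ?_⟩
    intro e
    rw [hs12, List.nodup_append] at hnd
    exact hnd.2.2 l hl l0 (by simp) e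
  have ht1' : ∀ l ∈ t1, l ∈ s' ∧ l ≠ l0 := by
    intro l hl
    refine ⟨by rw [ht12]; simp [hl], ?_⟩
    intro e
    rw [ht12, List.nodup_append] at hnd'
    exact hnd'.2.2 l hl l0 (by simp) e
  obtain ⟨k1, k2⟩ := key hn ζ A s1 s2 A1 A2 l0 v h hhv hz hA12 hvA1
    (fun l hl => hothers l (hs1' l hl).1 (hs1' l hl).2)
    (fun l hl => hhA l (hlt l (hs1' l hl).1)) (hhA l0 (hlt l0 hl0))
  obtain ⟨k3, k4⟩ := key hn ζ A t1 t2 A1 A2 l0 v h hhv hz hA12 hvA1
    (fun l hl => hothers l ((hs.mem_iff).2 ((hs'.mem_iff).1 (ht1' l hl).1)) (ht1' l hl).2)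
    (fun l hl => hhA l (hlt' l (ht1' l hl).1)) (hhA l0 (hlt l0 hl0))
  rw [← hs12] at k1 k2
  rw [← ht12] at k3 k4
  refine ⟨?_, ?_⟩
  · rw [k1, k3]
    apply Nat.ModEq.add_right
    have m1 : ∀ a : ℕ, a * (3 * n * cz ζ h) ≡ 0 [MOD n] := by
      intro a
      apply (Nat.modEq_zero_iff_dvd).2
      exact ⟨a * 3 * cz ζ h, by ring⟩
    exact (m1 _).trans (m1 _).symm
  · by_cases hc : cz ζ h = 0
    · left
      rw [k1, k3, hc]
      simp
    · right
      have p1 := le_pre (n := n) ζ l0 h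
      have p2 := le_suf hn ζ l0 h
      have p3 : 1 * 1 ≤ n * cz ζ h := Nat.mul_le_mul (by omega) (by omega)
      refine ⟨?_, ?_, ?_, ?_⟩
      · rw [k1]; omega
      · omega
      · rw [k3]; omega
      · omega

end Pool.Agent.MWFE.H86
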